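import Mathlib

/-!
The Grigorchuk group acting on finite binary words, and the proof that it is a 2-group.
-/

namespace Pool.Agent.MaxSub

/-- The four letters of the Klein four group `e, b, c, d`. -/
inductive L
  | e | b | c | d
  deriving DecidableEq

instance : Fintype L := ⟨{L.e, L.b, L.c, L.d}, by intro x; cases x <;> simp⟩

namespace L

/-- whether the letter acts by the flip on the left subtree -/
def alpha : L → Bool
  | e => false
  | b => true
  | c => true
  | d => false

/-- the section of the letter at the right subtree -/
def delta : L → L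
  | e => e
  | b => c
  | c => d
  | d => b

/-- Klein four multiplication -/
def mul : L → L → L
  | e, y => y
  | b, e => b
  | b, b => e
  | b, c => d
  | b, d => c
  | c, e => c
  | c, b => d
  | c, c => e
  | c, d => b
  | d, e => d
  | d, b => c
  | d, c => b
  | d, d => e

theorem mul_self (x : L) : mul x x = e := by cases x <;> rfl
theorem alpha_mul (x y : L) : (mul x y).alpha = xor x.alpha y.alpha := by
  cases x <;> cases y <;> rfl
theorem delta_mul (x y : L) : (mul x y).delta = mul x.delta y.delta := by
  cases x <;> cases y <;> rfl

end L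

/-- flip the first letter -/
def flipHd : List Bool → List Bool
  | [] => []
  | x :: l => (!x) :: l

/-- the action of a Klein letter on binary words -/
def act : L → List Bool → List Bool
  | _, [] => []
  | x, false :: l => false :: (if x.alpha then flipHd l else l)
  | x, true :: l => true :: act x.delta l

theorem flipHd_flipHd (l : List Bool) : flipHd (flipHd l) = l := by
  cases l with
  | nil => rfl
  | cons x l => simp [flipHd]

theorem length_flipHd (l : List Bool) : (flipHd l).length = l.length := by
  cases l <;> rfl

theorem act_act (l : List Bool) : ∀ x y : L, act x (act y l) = act (L.mul x y) l := by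
  induction l with
  | nil => intro x y; rfl
  | cons i l ih =>
    intro x y
    cases i with
    | false =>
      simp only [act, L.alpha_mul]
      cases x.alpha <;> cases y.alpha <;> simp [flipHd_flipHd]
    | true =>
      simp only [act, ih, L.delta_mul]

theorem act_e (l : List Bool) : act L.e l = l := by
  induction l with
  | nil => rfl
  | cons i l ih =>
    cases i with
    | false => simp [act, L.alpha]
    | true => simp [act, L.delta, ih]

theorem act_self (x : L) (l : List Bool) : act x (act x l) = l := by
  rw [act_act, L.mul_self, act_e]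

theorem length_act (l : List Bool) : ∀ x : L, (act x l).length = l.length := by
  induction l with
  | nil => intro x; rfl
  | cons i l ih =>
    intro x
    cases i with
    | false => simp only [act]; split <;> simp [length_flipHd]
    | true => simp [act, ih]

abbrev T := Equiv.Perm (List Bool)

def A : T := ⟨flipHd, flipHd, flipHd_flipHd, flipHd_flipHd⟩

def V (x : L) : T := ⟨act x, act x, act_self x, act_self x⟩

@[simp] theorem A_apply (l : List Bool) : A l = flipHd l := rfl
@[simp] theorem V_apply (x : L) (l : List Bool) : V x l = act x l := rfl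

theorem A_mul_A : A * A = 1 := Equiv.ext flipHd_flipHd
theorem V_mul_V (x y : L) : V x * V y = V (L.mul x y) := Equiv.ext fun l => act_act l x y
theorem V_e : V L.e = 1 := Equiv.ext act_e

/-- underlying map of `iota` -/
def iotaFun (g h : List Bool → List Bool) : List Bool → List Bool
  | [] => []
  | false :: l => false :: g l
  | true :: l => true :: h l

/-- act by `g` on the left subtree and by `h` on the right subtree -/
def iota (g h : T) : T where
  toFun := iotaFun g h
  invFun := iotaFun g.symm h.symm
  left_inv := by
    intro l
    match l with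
    | [] => rfl
    | false :: l => simp [iotaFun]
    | true :: l => simp [iotaFun]
  right_inv := by
    intro l
    match l with
    | [] => rfl
    | false :: l => simp [iotaFun]
    | true :: l => simp [iotaFun]

theorem iota_apply (g h : T) (l : List Bool) : iota g h l = iotaFun g h l := rfl

theorem iota_mul (g h g' h' : T) : iota g h * iota g' h' = iota (g * g') (h * h') := by
  apply Equiv.ext
  intro l
  match l with
  | [] => rfl
  | false :: l => rfl
  | true :: l => rfl

theorem iota_one : iota 1 1 = 1 := by
  apply Equiv.ext
  intro l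
  match l with
  | [] => rfl
  | false :: l => rfl
  | true :: l => rfl

theorem iota_pow (g h : T) (n : ℕ) : (iota g h) ^ n = iota (g ^ n) (h ^ n) := by
  induction n with
  | zero => simp [iota_one]
  | succ n ih => rw [pow_succ, ih, iota_mul, pow_succ, pow_succ]

theorem A_mul_iota (g h : T) : A * iota g h = iota h g * A := by
  apply Equiv.ext
  intro l
  match l with
  | [] => rfl
  | false :: l => rfl
  | true :: l => rfl

/-- `A` to the power `0` or `1` -/
def Apow (i : Bool) : T := if i then A else 1

theorem V_eq_iota (x : L) : V x = iota (Apow x.alpha) (V x.delta) := by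
  apply Equiv.ext
  intro l
  match l with
  | [] => rfl
  | false :: l =>
    simp only [V_apply, act, iota_apply, iotaFun, Apow]
    cases x.alpha <;> simp
  | true :: l => rfl

/-- 2-torsion -/
def Tors {G : Type*} [Group G] (g : G) : Prop := ∃ m : ℕ, g ^ (2 ^ m) = 1

section Tors
variable {G : Type*} [Group G]

theorem Tors.one : Tors (1 : G) := ⟨0, by simp⟩

theorem Tors.conj {g : G} (h : Tors g) (x : G) : Tors (x * g * x⁻¹) := by
  obtain ⟨m, hm⟩ := h
  exact ⟨m, by rw [conj_pow, hm]; simp⟩

theorem Tors.comm {x y : G} (h : Tors (x * y)) : Tors (y * x) := by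
  have := h.conj x⁻¹
  have e : x⁻¹ * (x * y) * x⁻¹⁻¹ = y * x := by group
  rwa [e] at this

theorem Tors.of_sq {g : G} (h : Tors (g * g)) : Tors g := by
  obtain ⟨m, hm⟩ := h
  refine ⟨m + 1, ?_⟩
  rw [pow_succ, mul_comm, pow_mul, pow_two]
  exact hm

theorem Tors.pow_of_le {g : G} {m n : ℕ} (h : g ^ (2 ^ m) = 1) (hmn : m ≤ n) : g ^ (2 ^ n) = 1 := by
  obtain ⟨k, rfl⟩ := Nat.exists_eq_add_of_le hmn
  rw [pow_add, pow_mul, h, one_pow]

end Tors

theorem Tors.iota {g h : T} (hg : Tors g) (hh : Tors h) : Tors (iota g h) := by
  obtain ⟨m, hm⟩ := hg
  obtain ⟨n, hn⟩ := hh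
  refine ⟨max m n, ?_⟩
  rw [iota_pow, Tors.pow_of_le hm (le_max_left _ _), Tors.pow_of_le hn (le_max_right _ _), iota_one]

/-- the product of the `V x * A` over the list -/
def P : List L → T
  | [] => 1
  | x :: l => V x * A * P l

/-- the pair of sections of `P l` -/
def F : List L → T × T
  | [] => (1, 1)
  | x :: l => (Apow x.alpha * (F l).2, V x.delta * (F l).1)

theorem P_eq (l : List L) : P l = iota (F l).1 (F l).2 * A ^ l.length := by
  induction l with
  | nil => simp [P, F, iota_one]
  | cons x l ih =>
    simp only [P, F, List.length_cons]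
    rw [ih, V_eq_iota x, mul_assoc, ← mul_assoc A, A_mul_iota, pow_succ', mul_assoc, ← mul_assoc,
      iota_mul]

/-- `Len g n`: `g` is a product of letters with exactly `n` occurrences of `A` -/
inductive Len : T → ℕ → Prop
  | one : Len 1 0
  | v (x : L) {g : T} {n : ℕ} : Len g n → Len (V x * g) n
  | a {g : T} {n : ℕ} : Len g n → Len (A * g) (n + 1)

theorem Len.mul {g h : T} {n m : ℕ} (hg : Len g n) (hh : Len h m) : Len (g * h) (n + m) := by
  induction hg with
  | one => simpa using hh
  | v x _ ih => rw [mul_assoc]; exact Len.v x ih
  | a _ ih =>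
    rw [mul_assoc, Nat.add_right_comm]
    exact Len.a ih

/-- the number of letters `b`, `c` -/
def cnt : List L → ℕ
  | [] => 0
  | x :: l => (if x.alpha then 1 else 0) + cnt l

theorem cnt_le (l : List L) : cnt l ≤ l.length := by
  induction l with
  | nil => simp [cnt]
  | cons x l ih => simp only [cnt, List.length_cons]; split <;> omega

theorem cnt_lt (l : List L) (h : ∃ x ∈ l, x.alpha = false) : cnt l < l.length := by
  induction l with
  | nil => simp at h
  | cons x l ih =>
    simp only [cnt, List.length_cons]
    obtain ⟨y, hy, hy'⟩ := h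
    rcases List.mem_cons.1 hy with rfl | hy
    · rw [hy']
      have := cnt_le l
      simp; omega
    · have := ih ⟨y, hy, hy'⟩
      split <;> omega

theorem len_F (l : List L) : ∃ p q : ℕ, p + q = cnt l ∧ p ≤ (l.length + 1) / 2 ∧
    q ≤ l.length / 2 ∧ Len (F l).1 p ∧ Len (F l).2 q := by
  induction l with
  | nil => exact ⟨0, 0, rfl, by simp, by simp, Len.one, Len.one⟩
  | cons x l ih =>
    obtain ⟨p, q, hpq, hp, hq, h1, h2⟩ := ih
    simp only [F, cnt, List.length_cons]
    by_cases hx : x.alpha = true
    · refine ⟨q + 1, p, by rw [hx]; simp; omega, by omega, by omega, ?_, ?_⟩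
      · rw [hx]; exact Len.a h2
      · exact Len.v _ h1
    · have hx' : x.alpha = false := by simpa using hx
      refine ⟨q, p, by rw [hx']; simp; omega, by omega, by omega, ?_, ?_⟩
      · rw [hx']; simpa [Apow] using h2
      · exact Len.v _ h1

theorem Len.exists_P {g : T} {n : ℕ} (h : Len g n) :
    ∃ (l : List L) (y : L), l.length = n ∧ g = P l * V y := by
  induction h with
  | one => exact ⟨[], L.e, rfl, by simp [P, V_e]⟩
  | v x _ ih =>
    obtain ⟨l, y, hl, rfl⟩ := ih
    cases l with
    | nil => exact ⟨[], L.mul x y, hl, by simp [P, V_mul_V]⟩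
    | cons z l =>
      refine ⟨L.mul x z :: l, y, by simpa using hl, ?_⟩
      simp only [P]
      rw [← V_mul_V]
      simp only [mul_assoc]
  | a _ ih =>
    obtain ⟨l, y, hl, rfl⟩ := ih
    exact ⟨L.e :: l, y, by simp [hl], by simp [P, V_e, mul_assoc]⟩

mutual
/-- letters in odd positions -/
def odds : List L → List L
  | [] => []
  | x :: l => x :: evens l
/-- letters in even positions -/
def evens : List L → List L
  | [] => []
  | _ :: l => odds l
end

theorem length_odds_evens (l : List L) : (odds l).length + (evens l).length = l.length := by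
  induction l with
  | nil => rfl
  | cons x l ih => simp only [odds, evens, List.length_cons]; omega

theorem mem_odds_evens (l : List L) (x : L) (h : x ∈ l) : x ∈ evens l ++ odds l := by
  induction l with
  | nil => simp at h
  | cons y l ih =>
    simp only [odds, evens, List.mem_append, List.mem_cons] at *
    rcases h with rfl | h
    · exact Or.inr (Or.inl rfl)
    · rcases ih h with h | h
      · exact Or.inr (Or.inr h)
      · exact Or.inl h

/-- the product of the `A * V (delta y)` over the list -/
def Q : List L → T
  | [] => 1
  | y :: l => A * V y.delta * Q l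

theorem Q_append (l m : List L) : Q (l ++ m) = Q l * Q m := by
  induction l with
  | nil => simp [Q]
  | cons x l ih => simp only [List.cons_append, Q, ih, mul_assoc]

theorem Q_mul_A (l : List L) : Q l * A = A * P (l.map L.delta) := by
  induction l with
  | nil => simp [Q, P]
  | cons x l ih =>
    simp only [Q, List.map_cons, P]
    rw [mul_assoc, ih]
    simp only [mul_assoc]

theorem F_all (l : List L) (h : ∀ x ∈ l, x.alpha = true) :
    (l.length % 2 = 0 → (F l).1 = Q (evens l)) ∧ (l.length % 2 = 1 → (F l).1 = Q (evens l) * A) ∧
    (l.length % 2 = 0 → A * (F l).2 = Q (odds l) * A) ∧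
    (l.length % 2 = 1 → A * (F l).2 = Q (odds l)) := by
  induction l with
  | nil => simp [F, Q, odds, evens]
  | cons x l ih =>
    have hx := h x (by simp)
    have ih := ih (fun y hy => h y (by simp [hy]))
    obtain ⟨h1, h2, h3, h4⟩ := ih
    simp only [List.length_cons, F, odds, evens, hx, Apow, Q]
    refine ⟨fun hl => ?_, fun hl => ?_, fun hl => ?_, fun hl => ?_⟩
    · exact h4 (by omega)
    · exact h3 (by omega)
    · rw [h2 (by omega)]; simp only [mul_assoc]
    · rw [h1 (by omega)]; simp only [mul_assoc]

theorem main_step (n : ℕ) (IH : ∀ m < n, ∀ g, Len g m → Tors g) :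
    ∀ l : List L, l.length = n → 0 < n → Tors (P l) := by
  intro l hl hn
  rcases Nat.mod_two_eq_zero_or_one n with he | ho
  · -- even case
    have hA : A ^ l.length = 1 := by
      obtain ⟨k, hk⟩ : ∃ k, n = 2 * k := ⟨n / 2, by omega⟩
      rw [hl, hk, pow_mul, pow_two, A_mul_A, one_pow]
    rw [P_eq, hA, mul_one]
    obtain ⟨p, q, _, hp, hq, h1, h2⟩ := len_F l
    exact Tors.iota (IH p (by omega) _ h1) (IH q (by omega) _ h2)
  · -- odd case
    have key : ∀ l : List L, l.length = n → Tors ((F l).1 * (F l).2) → Tors (P l) := by
      intro l hl ht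
      have hA : A ^ l.length = A := by
        obtain ⟨k, hk⟩ : ∃ k, n = 2 * k + 1 := ⟨n / 2, by omega⟩
        rw [hl, hk, pow_succ, pow_mul, pow_two, A_mul_A, one_pow, one_mul]
      apply Tors.of_sq
      rw [P_eq, hA]
      have e : iota (F l).1 (F l).2 * A * (iota (F l).1 (F l).2 * A) =
          iota ((F l).1 * (F l).2) ((F l).2 * (F l).1) := by
        rw [mul_assoc, ← mul_assoc A, A_mul_iota, mul_assoc, A_mul_A, mul_one, iota_mul]
      rw [e]
      exact Tors.iota ht ht.comm
    have claimD : ∀ l : List L, l.length = n → (∃ x ∈ l, x.alpha = false) → Tors (P l) := by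
      intro l hl hx
      apply key l hl
      obtain ⟨p, q, hpq, hp, hq, h1, h2⟩ := len_F l
      have := cnt_lt l hx
      exact IH (p + q) (by omega) _ (h1.mul h2)
    have claimE : ∀ l : List L, l.length = n → (∀ x ∈ l, x.alpha = true) →
        Tors (P ((evens l ++ odds l).map L.delta)) → Tors (P l) := by
      intro l hl hall ht
      apply key l hl
      obtain ⟨-, h2, -, h4⟩ := F_all l hall
      have e : (F l).1 * (F l).2 = A * P ((evens l ++ odds l).map L.delta) * A⁻¹ := by
        rw [← Q_mul_A, Q_append, h2 (by omega), mul_assoc, h4 (by omega)]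
        simp [mul_assoc]
      rw [e]
      exact ht.conj A
    have hlen : ∀ l : List L, ((evens l ++ odds l).map L.delta).length = l.length := by
      intro l
      have := length_odds_evens l
      simp only [List.length_map, List.length_append]; omega
    have claimC : ∀ l : List L, l.length = n → L.c ∈ l → Tors (P l) := by
      intro l hl hc
      by_cases hx : ∃ x ∈ l, x.alpha = false
      · exact claimD l hl hx
      · have hall : ∀ x ∈ l, x.alpha = true := by
          intro x hx'
          by_contra hcon
          exact hx ⟨x, hx', by simpa using hcon⟩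
        apply claimE l hl hall
        apply claimD _ ((hlen l).trans hl)
        exact ⟨L.d, List.mem_map.2 ⟨L.c, mem_odds_evens l L.c hc, rfl⟩, rfl⟩
    by_cases hc : L.c ∈ l
    · exact claimC l hl hc
    by_cases hx : ∃ x ∈ l, x.alpha = false
    · exact claimD l hl hx
    have hall : ∀ x ∈ l, x.alpha = true := by
      intro x hx'
      by_contra hcon
      exact hx ⟨x, hx', by simpa using hcon⟩
    apply claimE l hl hall
    apply claimC _ ((hlen l).trans hl)
    obtain ⟨x, hx'⟩ : ∃ x, x ∈ l := List.exists_mem_of_length_pos (by omega)
    have hb : x = L.b := by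
      have h1 := hall x hx'
      cases x with
      | e => simp [L.alpha] at h1
      | b => rfl
      | c => exact absurd hx' hc
      | d => simp [L.alpha] at h1
    subst hb
    exact List.mem_map.2 ⟨L.b, mem_odds_evens l L.b hx', rfl⟩

theorem tors_of_len : ∀ (n : ℕ) (g : T), Len g n → Tors g := by
  intro n
  induction n using Nat.strong_induction_on with
  | _ n IH =>
    intro g hg
    obtain ⟨l, y, hl, rfl⟩ := hg.exists_P
    cases l with
    | nil =>
      simp only [P, one_mul]
      exact ⟨1, by rw [pow_one, pow_two, V_mul_V, L.mul_self, V_e]⟩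
    | cons x l =>
      apply Tors.comm
      have e : V y * P (x :: l) = P (L.mul y x :: l) := by
        simp only [P]
        rw [← V_mul_V]
        simp only [mul_assoc]
      rw [e]
      exact main_step n IH _ (by simpa using hl) (by rw [← hl]; simp)

end Pool.Agent.MaxSub
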