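import Mathlib
import Pool.Agent.MaxSub.Grig

/-!
The action of the letters on the half-line `ℕ`, and the comparison with the action on words.
-/

namespace Pool.Agent.MaxSub

/-- partner under the flip letter -/
def aN (n : ℕ) : ℕ := if n % 2 = 0 then n + 1 else n - 1

theorem aN_even {n : ℕ} (h : n % 2 = 0) : aN n = n + 1 := if_pos h
theorem aN_odd {n : ℕ} (h : n % 2 = 1) : aN n = n - 1 := if_neg (by omega)

theorem aN_aN (n : ℕ) : aN (aN n) = n := by
  rcases Nat.mod_two_eq_zero_or_one n with h | h
  · rw [aN_even h, aN_odd (by omega)]; omega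
  · rw [aN_odd h, aN_even (by omega)]; omega

/-- partner under the Klein letters -/
def eN (n : ℕ) : ℕ := if n % 2 = 1 then n + 1 else n - 1

theorem eN_odd {n : ℕ} (h : n % 2 = 1) : eN n = n + 1 := if_pos h
theorem eN_even {n : ℕ} (h : n % 2 = 0) : eN n = n - 1 := if_neg (by omega)

theorem eN_eN (n : ℕ) : eN (eN n) = n := by
  rcases Nat.mod_two_eq_zero_or_one n with h | h
  · rcases Nat.eq_zero_or_pos n with h0 | h0
    · subst h0; rfl
    · rw [eN_even h, eN_odd (by omega)]; omega
  · rw [eN_odd h, eN_even (by omega)]; omega

theorem eN_idx (n : ℕ) : (eN n + 1) / 2 = (n + 1) / 2 := by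
  rcases Nat.mod_two_eq_zero_or_one n with h | h
  · rw [eN_even h]; omega
  · rw [eN_odd h]; omega

/-- does the letter `x` swap the `i`-th Klein edge of the half line -/
def sw (x : L) (i : ℕ) : Bool := (L.delta^[padicValNat 2 i] x).alpha

theorem sw_odd (x : L) (i : ℕ) (h : i % 2 = 1) : sw x i = x.alpha := by
  have : padicValNat 2 i = 0 := by
    apply padicValNat.eq_zero_of_not_dvd
    omega
  simp [sw, this]

theorem sw_even (x : L) (i : ℕ) (h : 0 < i) : sw x (2 * i) = sw x.delta i := by
  have : padicValNat 2 (2 * i) = padicValNat 2 i + 1 := by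
    rw [padicValNat.mul (by norm_num) (by omega), padicValNat.self (by norm_num)]
    omega
  simp [sw, this]

/-- action of the letter `x` on the half line -/
def lin (x : L) (n : ℕ) : ℕ := if sw x ((n + 1) / 2) then eN n else n

theorem lin_lin (x : L) (n : ℕ) : lin x (lin x n) = n := by
  unfold lin
  by_cases h : sw x ((n + 1) / 2) = true
  · rw [if_pos h, eN_idx, if_pos h, eN_eN]
  · rw [if_neg h, if_neg h]

/-- Gray code position of a word -/
def pos : List Bool → ℕ
  | [] => 0
  | true :: l => 2 * pos l + pos l % 2
  | false :: l => 2 * pos l + 1 - pos l % 2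

theorem pos_lt (l : List Bool) : pos l < 2 ^ l.length := by
  induction l with
  | nil => simp [pos]
  | cons i l ih =>
    cases i <;> simp only [pos, List.length_cons, pow_succ] <;> omega

theorem pos_flipHd (i : Bool) (l : List Bool) : pos (flipHd (i :: l)) = aN (pos (i :: l)) := by
  rcases Nat.mod_two_eq_zero_or_one (pos l) with h | h
  · cases i
    · simp only [flipHd, Bool.not_false, pos, h]
      rw [aN_odd (by omega)]; omega
    · simp only [flipHd, Bool.not_true, pos, h]
      rw [aN_even (by omega)]; omega
  · cases i
    · simp only [flipHd, Bool.not_false, pos, h]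
      rw [aN_even (by omega)]; omega
    · simp only [flipHd, Bool.not_true, pos, h]
      rw [aN_odd (by omega)]

theorem lin_zero (x : L) : lin x 0 = 0 := by
  unfold lin eN
  split <;> simp

theorem lin_of_true {x : L} {n i : ℕ} (hi : (n + 1) / 2 = i) (h : sw x i = true) :
    lin x n = eN n := by
  unfold lin; rw [hi, if_pos h]

theorem lin_of_false {x : L} {n i : ℕ} (hi : (n + 1) / 2 = i) (h : ¬ sw x i = true) :
    lin x n = n := by
  unfold lin; rw [hi, if_neg h]

theorem pos_true (l : List Bool) : pos (true :: l) = 2 * pos l + pos l % 2 := rfl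
theorem pos_false (l : List Bool) : pos (false :: l) = 2 * pos l + 1 - pos l % 2 := rfl

theorem pos_act (l : List Bool) : ∀ x : L, pos l + 1 < 2 ^ l.length ∨ l = [] →
    pos (act x l) = lin x (pos l) := by
  induction l with
  | nil => intro x _; simp [act, pos, lin_zero]
  | cons i l ih =>
    intro x h
    have hlt := pos_lt l
    have h' : pos (i :: l) + 1 < 2 * 2 ^ l.length := by
      rcases h with h | h
      · simpa [pow_succ, mul_comm] using h
      · simp at h
    cases i with
    | false =>
      simp only [act]
      cases l with
      | nil => simp [pos] at h'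
      | cons j l =>
        have hf := pos_flipHd j l
        generalize hm : pos (j :: l) = m at *
        rw [pos_false (j :: l), hm]
        have hidx : (2 * m + 1 - m % 2 + 1) / 2 = 2 * (m / 2) + 1 := by omega
        have hsw : sw x (2 * (m / 2) + 1) = x.alpha := sw_odd _ _ (by omega)
        cases hx : x.alpha with
        | false =>
          rw [lin_of_false hidx (by rw [hsw, hx]; simp)]
          rw [if_neg (by simp), pos_false (j :: l), hm]
        | true =>
          rw [lin_of_true hidx (by rw [hsw, hx])]
          rw [if_pos rfl, pos_false, hf]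
          rcases Nat.mod_two_eq_zero_or_one m with hm2 | hm2
          · rw [aN_even hm2, eN_odd (by omega)]; omega
          · rw [aN_odd hm2, eN_even (by omega)]; omega
    | true =>
      simp only [act]
      rw [pos_true] at h'
      have hIH : pos (act x.delta l) = lin x.delta (pos l) := by
        apply ih
        cases l with
        | nil => exact Or.inr rfl
        | cons j l =>
          left
          have h2 : 2 ^ (j :: l).length = 2 * 2 ^ l.length := by
            simp [pow_succ, mul_comm]
          omega
      rw [pos_true, pos_true, hIH]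
      generalize pos l = m at *
      rcases Nat.eq_zero_or_pos m with h0 | h0
      · rw [h0]; simp [lin_zero]
      rcases Nat.mod_two_eq_zero_or_one m with hm2 | hm2
      · obtain ⟨k, hk⟩ : ∃ k, m = 2 * k := ⟨m / 2, by omega⟩
        have e1 : (2 * m + m % 2 + 1) / 2 = 2 * k := by omega
        have e2 : (m + 1) / 2 = k := by omega
        have e3 : sw x (2 * k) = sw x.delta k := sw_even _ _ (by omega)
        by_cases hs : sw x.delta k = true
        · rw [lin_of_true e1 (by rw [e3]; exact hs), lin_of_true e2 hs]
          rw [eN_even (by omega : m % 2 = 0), eN_even (by omega)]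
          omega
        · rw [lin_of_false e1 (by rw [e3]; exact hs), lin_of_false e2 hs]
      · obtain ⟨k, hk⟩ : ∃ k, m + 1 = 2 * k := ⟨(m + 1) / 2, by omega⟩
        have e1 : (2 * m + m % 2 + 1) / 2 = 2 * k := by omega
        have e2 : (m + 1) / 2 = k := by omega
        have e3 : sw x (2 * k) = sw x.delta k := sw_even _ _ (by omega)
        by_cases hs : sw x.delta k = true
        · rw [lin_of_true e1 (by rw [e3]; exact hs), lin_of_true e2 hs]
          rw [eN_odd hm2, eN_odd (by omega)]
          omega
        · rw [lin_of_false e1 (by rw [e3]; exact hs), lin_of_false e2 hs]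

/-- existence of words with given position -/
theorem exists_pos (n : ℕ) : ∀ m : ℕ, m < 2 ^ n → ∃ l : List Bool, l.length = n ∧ pos l = m := by
  induction n with
  | zero => intro m hm; exact ⟨[], rfl, by simp at hm; simp [pos, hm]⟩
  | succ n ih =>
    intro m hm
    obtain ⟨l, hl, hp⟩ := ih (m / 2) (by rw [pow_succ] at hm; omega)
    by_cases h : pos (true :: l) = m
    · exact ⟨true :: l, by simp [hl], h⟩
    · refine ⟨false :: l, by simp [hl], ?_⟩
      rw [pos_true] at h
      rw [pos_false]
      omega

end Pool.Agent.MaxSub
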