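import Mathlib
import Pool.Agent.MaxSub.Line

/-!
The finitely generated residually finite 2-group built from the Grigorchuk group, a field `K` of
characteristic two with an element `w` different from `0` and `1`, and a function `q` on the
half-line that is fixed by an element of the augmentation ideal of the group algebra.
-/

namespace Pool.Agent.MaxSub

theorem iterate_delta (n : ℕ) :
    (L.delta^[n] L.b = L.b ∧ L.delta^[n] L.c = L.c) ∨
    (L.delta^[n] L.b = L.c ∧ L.delta^[n] L.c = L.d) ∨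
    (L.delta^[n] L.b = L.d ∧ L.delta^[n] L.c = L.b) := by
  induction n with
  | zero => left; exact ⟨rfl, rfl⟩
  | succ n ih =>
    rw [Function.iterate_succ_apply', Function.iterate_succ_apply']
    rcases ih with ⟨h1, h2⟩ | ⟨h1, h2⟩ | ⟨h1, h2⟩
    · right; left; rw [h1, h2]; exact ⟨rfl, rfl⟩
    · right; right; rw [h1, h2]; exact ⟨rfl, rfl⟩
    · left; rw [h1, h2]; exact ⟨rfl, rfl⟩

section
variable {K : Type} [Field K] (w : K)

/-- the value of `1` or `0` -/
def ind (K : Type) [Field K] (x : L) (i : ℕ) : K := if sw x i = true then 1 else 0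

/-- coefficient of the `i`-th Klein edge -/
def cf (i : ℕ) : K := ind K L.b i + w * ind K L.c i

theorem cf_ne_zero [CharP K 2] (h0 : w ≠ 0) (h1 : w ≠ 1) (i : ℕ) : cf w i ≠ 0 := by
  unfold cf ind sw
  rcases iterate_delta (padicValNat 2 i) with ⟨h1', h2'⟩ | ⟨h1', h2'⟩ | ⟨h1', h2'⟩
  · rw [h1', h2']
    simp only [L.alpha, if_true, mul_one]
    intro h
    apply h1
    have := CharTwo.add_self_eq_zero (1 : K)
    have h3 : (1 : K) + w = 1 + 1 := by rw [h, this]
    exact add_left_cancel h3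
  · rw [h1', h2']
    simp [L.alpha]
  · rw [h1', h2']
    simp [L.alpha, h0]

/-- the recursively defined pair -/
def rt : ℕ → K × K
  | 0 => (1, 0)
  | i + 1 => ((rt i).1 + (cf w (i + 1))⁻¹ * ((rt i).1 + (rt i).2), (rt i).1 + (rt i).2)

/-- the fixed function on the half line -/
def q (n : ℕ) : K := (rt w (n / 2)).1

theorem q_aN (n : ℕ) : q w (aN n) = q w n := by
  unfold q
  rcases Nat.mod_two_eq_zero_or_one n with h | h
  · have e : (n + 1) / 2 = n / 2 := by omega
    rw [aN_even h, e]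
  · have e : (n - 1) / 2 = n / 2 := by omega
    rw [aN_odd h, e]

theorem q_lin_odd [CharP K 2] (x : L) (i : ℕ) :
    q w (lin x (2 * i + 1)) = (rt w i).1 + ind K x (i + 1) * ((rt w i).1 + (rt w (i + 1)).1) := by
  have hi : (2 * i + 1 + 1) / 2 = i + 1 := by omega
  unfold ind
  by_cases h : sw x (i + 1) = true
  · rw [lin_of_true hi h, if_pos h, eN_odd (by omega), one_mul, CharTwo.add_cancel_left]
    unfold q
    have : (2 * i + 1 + 1) / 2 = i + 1 := by omega
    rw [this]
  · rw [lin_of_false hi h, if_neg h]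
    unfold q
    have : (2 * i + 1) / 2 = i := by omega
    rw [this]; ring

theorem q_lin_even [CharP K 2] (x : L) (i : ℕ) :
    q w (lin x (2 * (i + 1))) =
      (rt w (i + 1)).1 + ind K x (i + 1) * ((rt w i).1 + (rt w (i + 1)).1) := by
  have hi : (2 * (i + 1) + 1) / 2 = i + 1 := by omega
  unfold ind
  by_cases h : sw x (i + 1) = true
  · rw [lin_of_true hi h, if_pos h, eN_even (by omega), one_mul, add_comm (rt w i).1,
      CharTwo.add_cancel_left]
    unfold q
    have : (2 * (i + 1) - 1) / 2 = i := by omega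
    rw [this]
  · rw [lin_of_false hi h, if_neg h]
    unfold q
    have : (2 * (i + 1)) / 2 = i + 1 := by omega
    rw [this]; ring

theorem cf_mul [CharP K 2] (h0 : w ≠ 0) (h1 : w ≠ 1) (i : ℕ) :
    cf w (i + 1) * ((rt w i).1 + (rt w (i + 1)).1) = (rt w (i + 1)).2 := by
  have h := cf_ne_zero w h0 h1 (i + 1)
  simp only [rt]
  rw [CharTwo.add_cancel_left, mul_inv_cancel_left₀ h]

/-- the fixed point identity -/
theorem q_fix_aux [CharP K 2] (h0 : w ≠ 0) (h1 : w ≠ 1) (i : ℕ) :
    q w (lin L.b (2 * i)) + q w (lin L.b (2 * i + 1)) +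
      w * (q w (lin L.c (2 * i)) + q w (lin L.c (2 * i + 1))) = (rt w i).1 := by
  rw [q_lin_odd, q_lin_odd]
  have hc := cf_mul w h0 h1 i
  have ht : (rt w (i + 1)).2 = (rt w i).1 + (rt w i).2 := rfl
  unfold cf at hc
  rw [ht] at hc
  cases i with
  | zero =>
    simp only [mul_zero, lin_zero]
    have hq : q w 0 = (rt w 0).1 := rfl
    have hz : (rt w 0).2 = 0 := rfl
    rw [hz, add_zero] at hc
    rw [hq]
    have e := CharTwo.add_self_eq_zero (rt w 0).1
    calc _ = ((rt w 0).1 + (rt w 0).1) * (1 + w) +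
        (ind K L.b (0 + 1) + w * ind K L.c (0 + 1)) * ((rt w 0).1 + (rt w (0 + 1)).1) := by ring
      _ = _ := by rw [e, hc]; ring
  | succ i =>
    rw [q_lin_even, q_lin_even]
    have hc' := cf_mul w h0 h1 i
    unfold cf at hc'
    have e := CharTwo.add_self_eq_zero (rt w (i + 1)).1
    have e2 := CharTwo.add_self_eq_zero (rt w (i + 1)).2
    calc _ = ((rt w (i + 1)).1 + (rt w (i + 1)).1) * (1 + w) +
        (ind K L.b (i + 1) + w * ind K L.c (i + 1)) * ((rt w i).1 + (rt w (i + 1)).1) +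
        (ind K L.b (i + 1 + 1) + w * ind K L.c (i + 1 + 1)) *
          ((rt w (i + 1)).1 + (rt w (i + 1 + 1)).1) := by ring
      _ = (rt w (i + 1)).1 + ((rt w (i + 1)).2 + (rt w (i + 1)).2) := by rw [e, hc, hc']; ring
      _ = _ := by rw [e2, add_zero]

theorem q_fix [CharP K 2] (h0 : w ≠ 0) (h1 : w ≠ 1) (n : ℕ) :
    q w n + q w (lin L.b n) + q w (lin L.b (aN n)) +
      w * (q w (lin L.c n) + q w (lin L.c (aN n))) = 0 := by
  have key := q_fix_aux w h0 h1 (n / 2)
  have hq : q w n = (rt w (n / 2)).1 := rfl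
  have e := CharTwo.add_self_eq_zero (q w n)
  rcases Nat.mod_two_eq_zero_or_one n with h | h
  · have h2 : 2 * (n / 2) = n := by omega
    rw [h2, ← hq] at key
    rw [aN_even h]
    calc _ = q w n + (q w (lin L.b n) + q w (lin L.b (n + 1)) +
      w * (q w (lin L.c n) + q w (lin L.c (n + 1)))) := by ring
      _ = 0 := by rw [key, e]
  · have h2 : 2 * (n / 2) = n - 1 := by omega
    have h3 : n - 1 + 1 = n := by omega
    rw [h2, h3, ← hq] at key
    rw [aN_odd h]
    calc _ = q w n + (q w (lin L.b (n - 1)) + q w (lin L.b n) +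
      w * (q w (lin L.c (n - 1)) + q w (lin L.c n))) := by ring
      _ = 0 := by rw [key, e]

end

section group
variable (K : Type) [Field K]

abbrev PT := Equiv.Perm (List Bool × K)
abbrev PL := Equiv.Perm (ℕ × K)

def gA : PT K × PL K :=
  (⟨fun p => (flipHd p.1, p.2), fun p => (flipHd p.1, p.2),
    fun p => by simp [flipHd_flipHd], fun p => by simp [flipHd_flipHd]⟩,
   ⟨fun p => (aN p.1, p.2), fun p => (aN p.1, p.2),
    fun p => by simp [aN_aN], fun p => by simp [aN_aN]⟩)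

def gV (x : L) : PT K × PL K :=
  (⟨fun p => (act x p.1, p.2), fun p => (act x p.1, p.2),
    fun p => by simp [act_self], fun p => by simp [act_self]⟩,
   ⟨fun p => (lin x p.1, p.2), fun p => (lin x p.1, p.2),
    fun p => by simp [lin_lin], fun p => by simp [lin_lin]⟩)

variable {K}
variable [CharP K 2] (w : K)

def gT (k : K) : PT K × PL K :=
  (⟨fun p => (p.1, p.2 + k * q w (pos p.1)), fun p => (p.1, p.2 + k * q w (pos p.1)),
    fun p => by simp [add_assoc, CharTwo.add_self_eq_zero],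
    fun p => by simp [add_assoc, CharTwo.add_self_eq_zero]⟩,
   ⟨fun p => (p.1, p.2 + k * q w p.1), fun p => (p.1, p.2 + k * q w p.1),
    fun p => by simp [add_assoc, CharTwo.add_self_eq_zero],
    fun p => by simp [add_assoc, CharTwo.add_self_eq_zero]⟩)

/-- generating set -/
def S : Set (PT K × PL K) := {gA K} ∪ Set.range (gV K) ∪ Set.range (gT w)

theorem S_finite [Finite K] : (S w).Finite :=
  ((Set.finite_singleton _).union (Set.finite_range _)).union (Set.finite_range _)

theorem gA_sq : gA K * gA K = 1 := by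
  apply Prod.ext
  · apply Equiv.ext; intro p; simp [gA, flipHd_flipHd]
  · apply Equiv.ext; intro p; simp [gA, aN_aN]

theorem gV_sq (x : L) : gV K x * gV K x = 1 := by
  apply Prod.ext
  · apply Equiv.ext; intro p; simp [gV, act_self]
  · apply Equiv.ext; intro p; simp [gV, lin_lin]

theorem gT_sq (k : K) : gT w k * gT w k = 1 := by
  apply Prod.ext
  · apply Equiv.ext; intro p; simp [gT, add_assoc, CharTwo.add_self_eq_zero]
  · apply Equiv.ext; intro p; simp [gT, add_assoc, CharTwo.add_self_eq_zero]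

theorem S_sq {g : PT K × PL K} (hg : g ∈ S w) : g * g = 1 := by
  rcases hg with (hg | ⟨x, rfl⟩) | ⟨k, rfl⟩
  · rw [Set.mem_singleton_iff] at hg; subst hg; exact gA_sq
  · exact gV_sq x
  · exact gT_sq w k

theorem S_inv {g : PT K × PL K} (hg : g ∈ S w) : g⁻¹ = g :=
  inv_eq_of_mul_eq_one_left (S_sq w hg)

/-- the group -/
def W : Subgroup (PT K × PL K) := Subgroup.closure (S w)

/-- induction principle -/
theorem W_induction {p : PT K × PL K → Prop} (h1 : p 1)
    (hA : ∀ y, p y → p (gA K * y)) (hV : ∀ x y, p y → p (gV K x * y))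
    (hT : ∀ k y, p y → p (gT w k * y)) {g : PT K × PL K} (hg : g ∈ W w) : p g := by
  have hS : ∀ s ∈ S w, ∀ y, p y → p (s * y) := by
    intro s hs y hy
    rcases hs with (hs | ⟨x, rfl⟩) | ⟨k, rfl⟩
    · rw [Set.mem_singleton_iff] at hs; subst hs; exact hA y hy
    · exact hV x y hy
    · exact hT k y hy
  induction hg using Subgroup.closure_induction_left with
  | one => exact h1
  | mul_left s hs y _ hy => exact hS s hs y hy
  | inv_mul_cancel s hs y _ hy => rw [S_inv w hs]; exact hS s hs y hy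

/-- lengths are preserved on the tree side -/
theorem length_pres {g : PT K × PL K} (hg : g ∈ W w) :
    ∀ p, (g.1 p).1.length = p.1.length := by
  refine W_induction w (p := fun g => ∀ p, (g.1 p).1.length = p.1.length) ?_ ?_ ?_ ?_ hg
  · intro p; rfl
  · intro y hy p
    rw [← hy p]; exact length_flipHd _
  · intro x y hy p
    rw [← hy p]; exact length_act _ _
  · intro k y hy p
    exact hy p

/-- local approximation of the action on the line by the action on words -/
theorem approx {g : PT K × PL K} (hg : g ∈ W w) :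
    ∀ n κ, ∃ N, ∀ l : List Bool, N ≤ l.length → pos l = n →
      pos (g.1 (l, κ)).1 = (g.2 (n, κ)).1 ∧ (g.1 (l, κ)).2 = (g.2 (n, κ)).2 := by
  have hboth : (∀ p, (g.1 p).1.length = p.1.length) ∧ ∀ n κ, ∃ N, ∀ l : List Bool,
      N ≤ l.length → pos l = n →
      pos (g.1 (l, κ)).1 = (g.2 (n, κ)).1 ∧ (g.1 (l, κ)).2 = (g.2 (n, κ)).2 := by
    refine W_induction w (p := fun g => (∀ p, (g.1 p).1.length = p.1.length) ∧
      ∀ n κ, ∃ N, ∀ l : List Bool, N ≤ l.length → pos l = n →
      pos (g.1 (l, κ)).1 = (g.2 (n, κ)).1 ∧ (g.1 (l, κ)).2 = (g.2 (n, κ)).2) ?_ ?_ ?_ ?_ hg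
    · exact ⟨fun p => rfl, fun n κ => ⟨0, fun l _ hl => ⟨hl, rfl⟩⟩⟩
    · rintro y ⟨hy1, hy2⟩
      refine ⟨fun p => by rw [← hy1 p]; exact length_flipHd _, fun n κ => ?_⟩
      obtain ⟨N, hN⟩ := hy2 n κ
      refine ⟨N + 1, fun l hl hp => ?_⟩
      obtain ⟨h1, h2⟩ := hN l (by omega) hp
      have hlen := hy1 (l, κ)
      refine ⟨?_, h2⟩
      change pos (flipHd (y.1 (l, κ)).1) = aN (y.2 (n, κ)).1
      rw [← h1]
      cases hc : (y.1 (l, κ)).1 with
      | nil => rw [hc] at hlen; simp at hlen; omega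
      | cons i m => exact pos_flipHd i m
    · rintro x y ⟨hy1, hy2⟩
      refine ⟨fun p => by rw [← hy1 p]; exact length_act _ _, fun n κ => ?_⟩
      obtain ⟨N, hN⟩ := hy2 n κ
      refine ⟨N + (y.2 (n, κ)).1 + 1, fun l hl hp => ?_⟩
      obtain ⟨h1, h2⟩ := hN l (by omega) hp
      have hlen := hy1 (l, κ)
      refine ⟨?_, h2⟩
      change pos (act x (y.1 (l, κ)).1) = lin x (y.2 (n, κ)).1
      rw [← h1]
      apply pos_act
      left
      rw [h1, hlen]
      calc (y.2 (n, κ)).1 + 1 < 2 ^ ((y.2 (n, κ)).1 + 1) := Nat.lt_two_pow_self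
        _ ≤ 2 ^ l.length := Nat.pow_le_pow_right (by norm_num) (by omega)
    · rintro k y ⟨hy1, hy2⟩
      refine ⟨fun p => hy1 p, fun n κ => ?_⟩
      obtain ⟨N, hN⟩ := hy2 n κ
      refine ⟨N, fun l hl hp => ?_⟩
      obtain ⟨h1, h2⟩ := hN l hl hp
      refine ⟨h1, ?_⟩
      change (y.1 (l, κ)).2 + k * q w (pos (y.1 (l, κ)).1) =
        (y.2 (n, κ)).2 + k * q w (y.2 (n, κ)).1
      rw [h1, h2]
  exact hboth.2

theorem eq_one_of_fst {g : PT K × PL K} (hg : g ∈ W w) (h : g.1 = 1) : g = 1 := by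
  apply Prod.ext h
  apply Equiv.ext
  rintro ⟨n, κ⟩
  obtain ⟨N, hN⟩ := approx w hg n κ
  obtain ⟨l, hl, hp⟩ := exists_pos (N + n) n (lt_of_lt_of_le Nat.lt_two_pow_self
    (Nat.pow_le_pow_right (by norm_num) (by omega)))
  obtain ⟨h1, h2⟩ := hN l (by omega) hp
  rw [h] at h1 h2
  apply Prod.ext
  · exact h1.symm.trans hp
  · exact h2.symm

/-- `σ` covers the tree permutation `h` and is a translation in the second coordinate -/
def Shape (σ : PT K) (h : T) : Prop := ∃ φ : List Bool → K, ∀ p, σ p = (h p.1, p.2 + φ p.1)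

theorem Shape.one : Shape (1 : PT K) 1 := ⟨fun _ => 0, fun p => by simp⟩

theorem Shape.mul {σ τ : PT K} {h k : T} (h1 : Shape σ h) (h2 : Shape τ k) :
    Shape (σ * τ) (h * k) := by
  obtain ⟨φ, hφ⟩ := h1
  obtain ⟨ψ, hψ⟩ := h2
  refine ⟨fun l => ψ l + φ (k l), fun p => ?_⟩
  rw [Equiv.Perm.mul_apply, hψ, hφ]
  simp [add_assoc]

theorem Shape.pow {σ : PT K} {h : T} (h1 : Shape σ h) (n : ℕ) : Shape (σ ^ n) (h ^ n) := by
  induction n with
  | zero => simpa using Shape.one
  | succ n ih => rw [pow_succ, pow_succ]; exact ih.mul h1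

theorem exists_shape {g : PT K × PL K} (hg : g ∈ W w) : ∃ h n, Len h n ∧ Shape g.1 h := by
  refine W_induction w (p := fun g => ∃ h n, Len h n ∧ Shape g.1 h) ?_ ?_ ?_ ?_ hg
  · exact ⟨1, 0, Len.one, Shape.one⟩
  · rintro y ⟨h, n, hl, hs⟩
    refine ⟨A * h, n + 1, Len.a hl, Shape.mul ⟨fun _ => 0, fun p => ?_⟩ hs⟩
    simp [gA]
  · rintro x y ⟨h, n, hl, hs⟩
    refine ⟨V x * h, n, Len.v x hl, Shape.mul ⟨fun _ => 0, fun p => ?_⟩ hs⟩
    simp [gV]
  · rintro k y ⟨h, n, hl, hs⟩
    refine ⟨1 * h, n, by simpa using hl, Shape.mul ⟨fun l => k * q w (pos l), fun p => ?_⟩ hs⟩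
    simp [gT]

theorem tors_W {g : PT K × PL K} (hg : g ∈ W w) : ∃ m : ℕ, g ^ (2 ^ m) = 1 := by
  obtain ⟨h, n, hl, hs⟩ := exists_shape w hg
  obtain ⟨m, hm⟩ := tors_of_len n h hl
  refine ⟨m + 1, eq_one_of_fst w (pow_mem hg _) ?_⟩
  have h1 := hs.pow (2 ^ m)
  rw [hm] at h1
  obtain ⟨φ, hφ⟩ := h1
  have e : (g ^ 2 ^ (m + 1)).1 = (g.1 ^ 2 ^ m) * (g.1 ^ 2 ^ m) := by
    rw [Prod.pow_fst, pow_succ, pow_mul, pow_two]
  rw [e]
  apply Equiv.ext
  intro p
  rw [Equiv.Perm.mul_apply, hφ, hφ]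
  simp [add_assoc, CharTwo.add_self_eq_zero]

end group

end Pool.Agent.MaxSub
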