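import Mathlib
import Pool.Agent.MaxSub.Wreath

/-!
The finitely generated residually finite 2-group `W` has a maximal subgroup that is not normal.
-/

namespace Pool.Agent.MaxSub

/-- in a finitely generated group every proper subgroup lies in a maximal one -/
theorem exists_coatom {G : Type*} [Group G] (hfg : Group.FG G) (H : Subgroup G) (hH : H ≠ ⊤) :
    ∃ M : Subgroup G, IsCoatom M ∧ H ≤ M := by
  have : IsCoatomic (Subgroup G) := by
    apply IsCoatomic.of_isChain_bounded
    intro c hc hne htop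
    refine ⟨sSup c, ?_, fun x hx => le_sSup hx⟩
    intro hs
    obtain ⟨s, hs1⟩ := hfg.out
    have hdir : DirectedOn (· ≤ ·) c := hc.directedOn
    have hmem : ∀ t : Finset G, (t : Set G) ⊆ (⊤ : Subgroup G) → ∃ M ∈ c, (t : Set G) ⊆ M := by
      intro t
      classical
      induction t using Finset.induction_on with
      | empty => intro _; obtain ⟨M, hM⟩ := hne; exact ⟨M, hM, by simp⟩
      | insert a t ha ih =>
        intro _
        obtain ⟨M, hM, hMt⟩ := ih (fun _ _ => Subgroup.mem_top _)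
        have hat : a ∈ sSup c := by rw [hs]; exact Subgroup.mem_top _
        obtain ⟨M', hM', haM'⟩ := (Subgroup.mem_sSup_of_directedOn hne hdir).1 hat
        obtain ⟨N, hN, h1, h2⟩ := hdir M hM M' hM'
        refine ⟨N, hN, ?_⟩
        intro x hx
        rcases Finset.mem_insert.1 (by simpa using hx) with rfl | hx
        · exact h2 haM'
        · exact h1 (hMt hx)
    obtain ⟨M, hM, hsM⟩ := hmem s (fun _ _ => Subgroup.mem_top _)
    apply htop
    have : (⊤ : Subgroup G) ≤ M := by
      rw [← hs1]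
      exact (Subgroup.closure_le M).2 hsM
    rw [← top_le_iff.1 this]
    exact hM
  rcases (eq_top_or_exists_le_coatom H) with h | ⟨M, hM, h⟩
  · exact absurd h hH
  · exact ⟨M, hM, h⟩

section
variable {K : Type} [Field K] [CharP K 2] (w : K)

theorem W_fg [Finite K] : Group.FG (W w) := by
  have : Finite (S w) := (S_finite w).to_subtype
  exact Group.closure_finite_fg (S w)

theorem W_pgroup : IsPGroup 2 (W w) := by
  rintro ⟨g, hg⟩
  obtain ⟨m, hm⟩ := tors_W w hg
  exact ⟨m, Subtype.ext (by simpa using hm)⟩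

theorem W_rf [Finite K] (g : W w) (hg : g ≠ 1) :
    ∃ N : Subgroup (W w), N.Normal ∧ N.index ≠ 0 ∧ g ∉ N := by
  let f : W w →* PT K := (MonoidHom.fst (PT K) (PL K)).comp (W w).subtype
  have hf : ∀ x : W w, f x = (x : PT K × PL K).1 := fun x => rfl
  have hne : f g ≠ 1 := by
    intro h
    apply hg
    apply Subtype.ext
    exact eq_one_of_fst w g.2 h
  obtain ⟨p, hp⟩ : ∃ p, f g p ≠ p := by
    by_contra hcon
    push Not at hcon
    exact hne (Equiv.ext hcon)
  let _ : MulAction (W w) (List Bool × K) := MulAction.compHom _ f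
  have hsm : ∀ (x : W w) (z : List Bool × K), x • z = f x z := fun x z => rfl
  have hfin : (MulAction.orbit (W w) p).Finite := by
    have h1 : {z : List Bool × K | z.1.length = p.1.length}.Finite := by
      have h2 := (List.finite_length_eq Bool p.1.length).prod (Set.finite_univ (α := K))
      refine h2.subset ?_
      intro z hz
      exact ⟨hz, Set.mem_univ _⟩
    refine h1.subset ?_
    rintro z ⟨x, rfl⟩
    change (f x p).1.length = p.1.length
    exact length_pres w x.2 p
  have hidx : (MulAction.stabilizer (W w) p).index ≠ 0 := by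
    rw [MulAction.index_stabilizer]
    exact Set.ncard_ne_zero_of_mem (MulAction.mem_orbit_self p) hfin
  have _ : (MulAction.stabilizer (W w) p).FiniteIndex := ⟨hidx⟩
  refine ⟨(MulAction.stabilizer (W w) p).normalCore, inferInstance, ?_, ?_⟩
  · exact (Subgroup.finiteIndex_normalCore (MulAction.stabilizer (W w) p)).index_ne_zero
  · intro hmem
    exact hp (MulAction.mem_stabilizer_iff.1 (Subgroup.normalCore_le _ hmem))

/-- the elements whose action on the line does not change the second coordinate -/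
def H : Subgroup (W w) where
  carrier := {g | ∀ p : ℕ × K, ((g : PT K × PL K).2 p).2 = p.2}
  one_mem' := fun p => rfl
  mul_mem' := by
    intro g h hg hh p
    change ((g : PT K × PL K).2 ((h : PT K × PL K).2 p)).2 = p.2
    rw [hg, hh]
  inv_mem' := by
    intro g hg p
    change (((g : PT K × PL K).2)⁻¹ p).2 = p.2
    have := hg (((g : PT K × PL K).2)⁻¹ p)
    have e : (g : PT K × PL K).2 (((g : PT K × PL K).2)⁻¹ p) = p :=
      Equiv.apply_symm_apply _ _
    rw [e] at this
    exact this.symm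

theorem mem_H (g : W w) : g ∈ H w ↔ ∀ p : ℕ × K, ((g : PT K × PL K).2 p).2 = p.2 := Iff.rfl

def eA : W w := ⟨gA K, Subgroup.subset_closure (Or.inl (Or.inl rfl))⟩
def eV (x : L) : W w := ⟨gV K x, Subgroup.subset_closure (Or.inl (Or.inr ⟨x, rfl⟩))⟩
def eT (k : K) : W w := ⟨gT w k, Subgroup.subset_closure (Or.inr ⟨k, rfl⟩)⟩

theorem eA_inv : (eA w)⁻¹ = eA w :=
  inv_eq_of_mul_eq_one_left (Subtype.ext gA_sq)
theorem eV_inv (x : L) : (eV w x)⁻¹ = eV w x :=
  inv_eq_of_mul_eq_one_left (Subtype.ext (gV_sq x))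
theorem eT_sq (k : K) : eT w k * eT w k = 1 := Subtype.ext (gT_sq w k)

theorem H_ne_top : H w ≠ ⊤ := by
  intro h
  have h1 : eT w 1 ∈ H w := by rw [h]; exact Subgroup.mem_top _
  have h2 := (mem_H w _).1 h1 (0, 0)
  have h3 : (0 : K) + 1 * q w 0 = 0 := h2
  have h4 : q w 0 = 1 := rfl
  rw [h4] at h3
  simp at h3

theorem eA_mem_H : eA w ∈ H w := fun _ => rfl
theorem eV_mem_H (x : L) : eV w x ∈ H w := fun _ => rfl

/-- the element witnessing that the normal closure of `H` is everything -/
def u (k : K) : W w :=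
  eT w k * (eV w L.b * eT w k * eV w L.b) *
    (eA w * eV w L.b * eT w k * (eV w L.b * eA w)) *
    (eV w L.c * eT w (k * w) * eV w L.c) *
    (eA w * eV w L.c * eT w (k * w) * (eV w L.c * eA w))

theorem u_mem_H (h0 : w ≠ 0) (h1 : w ≠ 1) (k : K) : u w k ∈ H w := by
  rw [mem_H]
  rintro ⟨n, κ⟩
  have key := q_fix w h0 h1 n
  have hcomp : ((u w k : PT K × PL K).2 (n, κ)).2 =
      κ + (k * w) * q w (lin L.c (aN n)) + (k * w) * q w (lin L.c n)
        + k * q w (lin L.b (aN n)) + k * q w (lin L.b n) + k * q w n := by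
    simp [u, eT, eV, eA, gT, gV, gA, lin_lin, aN_aN]
  rw [hcomp]
  calc _ = κ + k * (q w n + q w (lin L.b n) + q w (lin L.b (aN n)) +
      w * (q w (lin L.c n) + q w (lin L.c (aN n)))) := by ring
    _ = κ := by rw [key]; ring

theorem not_normal (h0 : w ≠ 0) (h1 : w ≠ 1) (M : Subgroup (W w)) (hM : M ≠ ⊤) (hHM : H w ≤ M) :
    ¬ M.Normal := by
  intro hN
  apply hM
  have hA : (QuotientGroup.mk' M) (eA w) = 1 :=
    (QuotientGroup.eq_one_iff _).2 (hHM (eA_mem_H w))
  have hV : ∀ x, (QuotientGroup.mk' M) (eV w x) = 1 := fun x =>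
    (QuotientGroup.eq_one_iff _).2 (hHM (eV_mem_H w x))
  have hT : ∀ k, (QuotientGroup.mk' M) (eT w k) = 1 := by
    intro k
    have hu : (QuotientGroup.mk' M) (u w k) = 1 :=
      (QuotientGroup.eq_one_iff _).2 (hHM (u_mem_H w h0 h1 k))
    have hsq : ∀ k, (QuotientGroup.mk' M) (eT w k) * (QuotientGroup.mk' M) (eT w k) = 1 := by
      intro k
      rw [← map_mul, eT_sq, map_one]
    unfold u at hu
    simp only [map_mul, hA, hV, one_mul, mul_one] at hu
    rw [mul_assoc _ _ ((QuotientGroup.mk' M) (eT w (k * w))), hsq (k * w), mul_one,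
      hsq k, one_mul] at hu
    exact hu
  have hall : ∀ g (hg : g ∈ W w), (QuotientGroup.mk' M) ⟨g, hg⟩ = 1 := by
    intro g hg
    have : (⟨g, hg⟩ : W w) ∈ (QuotientGroup.mk' M).ker := by
      have hle : W w ≤ ((QuotientGroup.mk' M).ker).map (W w).subtype := by
        unfold W
        rw [Subgroup.closure_le]
        rintro s ((hs | ⟨x, rfl⟩) | ⟨k, rfl⟩)
        · rw [Set.mem_singleton_iff] at hs; subst hs
          exact ⟨eA w, hA, rfl⟩
        · exact ⟨eV w x, hV x, rfl⟩
        · exact ⟨eT w k, hT k, rfl⟩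
      obtain ⟨y, hy, hyg⟩ := hle hg
      have : y = ⟨g, hg⟩ := Subtype.ext hyg
      rw [← this]; exact hy
    exact this
  rw [eq_top_iff]
  rintro ⟨g, hg⟩ -
  exact (QuotientGroup.eq_one_iff _).1 (hall g hg)

end

theorem exists_field : ∃ (K : Type) (_ : Field K) (_ : CharP K 2) (_ : Finite K) (w : K),
    w ≠ 0 ∧ w ≠ 1 := by
  refine ⟨GaloisField 2 2, inferInstance, inferInstance, inferInstance, ?_⟩
  by_contra hcon
  push Not at hcon
  have hcard := GaloisField.card 2 2 (by norm_num)
  have hsub : (Set.univ : Set (GaloisField 2 2)) ⊆ {0, 1} := by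
    intro x _
    by_cases hx : x = 0
    · exact Or.inl hx
    · exact Or.inr (hcon x hx)
  have h1 := Set.ncard_le_ncard hsub (Set.toFinite _)
  rw [Set.ncard_univ, hcard] at h1
  have h2 : ({0, 1} : Set (GaloisField 2 2)).ncard ≤ 2 := Set.ncard_insert_le _ _ |>.trans (by simp)
  omega

end Pool.Agent.MaxSub
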